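import Pool.Agent.Helper754_LD.Base

/-!
# Order facts in one-generated LD-monoids
-/

namespace LDMon

open LDM

/-- The two further hypotheses. -/
class LDMH (P : Type) [LDM P] : Prop where
  irr1 : ∀ s : P, deg s = 1 → ¬ lt s s
  R : ∀ a b q d : P, le a q → o a b ≠ p q d

variable {P : Type} [LDM P]

theorem le_rfl' (a : P) : le a a := Or.inl rfl

theorem lt.le {a b : P} (h : lt a b) : le a b := Or.inr h

theorem le_trans' {a b c : P} (h : le a b) (h' : le b c) : le a c := by
  rcases h with rfl | h
  · exact h'
  · rcases h' with rfl | h'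
    · exact Or.inr h
    · exact Or.inr (h.trans h')

theorem lt_le {a b c : P} (h : lt a b) (h' : le b c) : lt a c := by
  rcases h' with rfl | h'
  · exact h
  · exact h.trans h'

theorem le_lt {a b c : P} (h : le a b) (h' : lt b c) : lt a c := by
  rcases h with rfl | h
  · exact h'
  · exact h.trans h'

theorem deg_pos (v : P) : 1 ≤ deg v := by
  refine ind (fun v => 1 ≤ deg v) ?_ ?_ ?_ v
  · rw [deg_x]
  · intro a b _ hb; rw [deg_p]; exact hb
  · intro a b ha hb; rw [deg_o]; omega

theorem x_le (v : P) : le (x : P) v := by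
  refine ind (fun v => le x v) (Or.inl rfl) ?_ ?_ v
  · intro a b ha _; exact le_trans' ha (Or.inr (lt.p1 a b))
  · intro a b ha _; exact le_trans' ha (Or.inr (lt.o1 a b))

theorem ld (a b c : P) : p a (p b c) = p (p a b) (p a c) := by
  rw [← po, oo, po]

theorem p_lt_o (v b : P) : lt (p v b) (o v b) := by
  rw [oo]; exact lt.o1 _ _

theorem p_mono (v : P) {b b' : P} (h : lt b b') : lt (p v b) (p v b') := by
  induction h with
  | p1 a b => rw [ld]; exact lt.p1 _ _
  | o1 a b => rw [LDM.op]; exact lt.o1 _ _
  | trans _ _ h1 h2 => exact h1.trans h2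

theorem o_mono (v : P) {b b' : P} (h : lt b b') : lt (o v b) (o v b') := by
  induction h with
  | p1 a b =>
    rw [oo v (p a b), ← po]
    exact (lt.p1 _ _).trans (lt.o1 _ _)
  | o1 a b => rw [← oassoc]; exact lt.o1 _ _
  | trans _ _ h1 h2 => exact h1.trans h2

theorem o_lt_p (v : P) {e f : P} (h : lt e f) : lt (o v e) (p v f) := by
  induction h with
  | p1 a b => rw [← po]; exact lt.p1 _ _
  | o1 a b => rw [LDM.op, oo v a]; exact o_mono _ (lt.p1 _ _)
  | trans h1 h2 i1 i2 => exact i1.trans (p_mono v h2)

theorem p_mono_le (v : P) {b b' : P} (h : le b b') : le (p v b) (p v b') := by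
  rcases h with rfl | h
  · exact le_rfl' _
  · exact Or.inr (p_mono v h)

theorem o_mono_le (v : P) {b b' : P} (h : le b b') : le (o v b) (o v b') := by
  rcases h with rfl | h
  · exact le_rfl' _
  · exact Or.inr (o_mono v h)

theorem px_le_of_lt {v w : P} (h : lt v w) : le (p v x) w := by
  induction h with
  | p1 a b => exact p_mono_le a (x_le b)
  | o1 a b => exact le_trans' (p_mono_le a (x_le b)) (p_lt_o a b).le
  | trans h1 h2 i1 i2 => exact le_trans' i1 h2.le

variable [LDMH P]

theorem irr (v : P) : ¬ lt v v := by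
  intro h
  have h1 : lt (p v x) (p v x) := lt_of h
  exact LDMH.irr1 _ (by rw [deg_p, deg_x]) h1
where
  lt_of {v : P} (h : lt v v) : lt (p v x) (p v x) := le_lt (px_le_of_lt h) (lt.p1 v x)

theorem asymm {a b : P} (h : lt a b) (h' : lt b a) : False := irr a (h.trans h')

theorem not_lt_le {a b : P} (h : lt a b) (h' : le b a) : False := irr a (lt_le h h')

theorem not_le_lt {a b : P} (h : le a b) (h' : lt b a) : False := irr a (le_lt h h')

theorem le_antisymm' {a b : P} (h : le a b) (h' : le b a) : a = b := by
  rcases h with h | h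
  · exact h
  · exact absurd h' (fun h' => not_lt_le h h')

/-! ### Bounds -/

/-- `h ≤ B`, where `none` is the top. -/
def leB (h : P) : Option P → Prop
  | none => True
  | some b => le h b

/-- `h < B`, where `none` is the top. -/
def ltB (h : P) : Option P → Prop
  | none => True
  | some b => lt h b

end LDMon
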