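import Mathlib

/-!
# One-generated LD-monoids: interface

`o a b` is the composition `a ∘ b`, `p a b` the self-distributive operation `a · b`.
-/

namespace LDMon

/-- A left self-distributive monoid (without unit) generated by one element `x`, with a degree. -/
class LDM (P : Type) where
  x : P
  o : P → P → P
  p : P → P → P
  deg : P → ℕ
  oassoc : ∀ a b c, o (o a b) c = o a (o b c)
  po : ∀ a b c, p (o a b) c = p a (p b c)
  op : ∀ a b c, p a (o b c) = o (p a b) (p a c)
  oo : ∀ a b, o a b = o (p a b) a
  deg_x : deg x = 1
  deg_o : ∀ a b, deg (o a b) = deg a + deg b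
  deg_p : ∀ a b, deg (p a b) = deg b
  ind : ∀ q : P → Prop, q x → (∀ a b, q a → q b → q (p a b)) →
    (∀ a b, q a → q b → q (o a b)) → ∀ v, q v

open LDM

variable {P : Type} [LDM P]

/-- The order: transitive closure of `a < a · b` and `a < a ∘ b`. -/
inductive lt : P → P → Prop
  | p1 (a b : P) : lt a (p a b)
  | o1 (a b : P) : lt a (o a b)
  | trans {a b c : P} : lt a b → lt b c → lt a c

def le (a b : P) : Prop := a = b ∨ lt a b

end LDMon
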