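import Pool.Agent.Helper754_LD.Main

/-!
# Division chains and the classification
-/

namespace LDMon

open LDM

variable {P : Type} [LDM P]

/-- Division chains with base `E`; the first argument is the predecessor of the second. -/
inductive Chn (E : P) : P → P → Prop
  | one (h : P) : Chn E E (p E h)
  | step {r v b : P} : Chn E r v → le b r → Chn E v (p v b)

theorem Chn.gt {E r v : P} (h : Chn E r v) : lt E v := by
  induction h with
  | one h => exact lt.p1 _ _
  | step _ _ ih => exact ih.trans (lt.p1 _ _)

theorem Chn.pred {E r v : P} (h : Chn E r v) : ∃ k, v = p r k := by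
  cases h with
  | one h => exact ⟨_, rfl⟩
  | step _ _ => exact ⟨_, rfl⟩

theorem o_p_o (r k y : P) : o (p r k) (o r y) = o r (o k y) := by
  rw [← oassoc, ← oo, oassoc]

/-- Forward paths, used for the uniqueness of predecessors. -/
inductive Pth : Option P → P → P → P → Prop
  | one {B : Option P} {E h : P} : leB h B → Pth B E E (p E h)
  | more {B : Option P} {E h r v : P} : leB h B → Pth (some E) (p E h) r v → Pth B E r v

theorem Pth.gt {B : Option P} {E r v : P} (h : Pth B E r v) : lt E v := by
  induction h with
  | one h => exact lt.p1 _ _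
  | more _ _ ih => exact (lt.p1 _ _).trans ih

theorem Pth.bound {B : Option P} {E r v : P} (h : Pth B E r v) :
    ∀ b, B = some b → lt v (o E b) := by
  induction h with
  | one h =>
    rintro b rfl
    exact le_lt (p_mono_le _ h) (p_lt_o _ _)
  | more h1 _ ih =>
    rintro b rfl
    have := ih _ rfl
    rw [← oo] at this
    exact lt_le this (o_mono_le _ h1)

theorem Pth.append {B : Option P} {E r v : P} (h : Pth B E r v) {b : P} (hb : le b r) :
    Pth B E v (p v b) := by
  induction h with
  | one h => exact .more h (.one hb)
  | more h1 _ ih => exact .more h1 (ih hb)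

theorem Chn.pth {E r v : P} (h : Chn E r v) : Pth none E r v := by
  induction h with
  | one h => exact .one trivial
  | step _ hb ih => exact ih.append hb

variable [LDMH P]

theorem Pth.unique {B : Option P} {E r v : P} (h : Pth B E r v) :
    ∀ {B' : Option P} {r' : P}, Pth B' E r' v → r = r' := by
  have key : ∀ {E h v r' : P}, Pth (some E) (p E h) r' v → lt v (o E h) := by
    intro E h v r' h1
    have := h1.bound _ rfl
    rwa [← oo] at this
  induction h with
  | @one B E k hk =>
    intro B' r' h'
    generalize hv : p E k = v at h'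
    cases h' with
    | one _ => rfl
    | @more _ _ k' _ _ hk' h2 =>
      exfalso
      subst hv
      have e1 := key h2
      have e2 := h2.gt
      rcases tri k k' with h | rfl | h
      · exact asymm (p_mono E h) e2
      · exact irr _ e2
      · exact asymm e1 (o_lt_p E h)
  | @more B E k r v hk h1 ih =>
    intro B' r' h'
    have f1 := key h1
    have f2 := h1.gt
    generalize hv : v = v' at h'
    cases h' with
    | @one _ _ k' hk' =>
      exfalso
      subst hv
      rcases tri k k' with h | rfl | h
      · exact asymm f1 (o_lt_p E h)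
      · exact irr _ f2
      · exact asymm (p_mono E h) f2
    | @more _ _ k' _ _ hk' h2 =>
      subst hv
      have e1 := key h2
      have e2 := h2.gt
      rcases tri k k' with h | rfl | h
      · exact (irr v (f1.trans ((o_lt_p E h).trans e2))).elim
      · exact ih h2
      · exact (irr v (e1.trans ((o_lt_p E h).trans f2))).elim

theorem Chn.unique {E r r' v : P} (h : Chn E r v) (h' : Chn E r' v) : r = r' :=
  h.pth.unique h'.pth

/-! ### All members of a chain divide -/

theorem no_between {E c z : P} (h1 : le (p E c) (o E z)) (h2 : lt (o E z) (o E c)) : False :=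
  not_lt_le (o_lt_p E (o_cancel_lt h2)) h1

theorem desc_step {r k c v : P} (hc : le c r ∨ ∃ a d, le a r ∧ c = o a d)
    (h1 : le (p (p r k) c) v) (h2 : lt v (o (p r k) c)) :
    ∃ c', (c' = k ∨ ∃ d, c' = o k d) ∧ le (p r c') v ∧ lt v (o r c') := by
  rcases le_or_lt c r with hcr | hcr
  · refine ⟨k, Or.inl rfl, le_trans' (lt.p1 _ _).le h1, ?_⟩
    refine lt_le h2 ?_
    rw [oo r k]
    exact o_mono_le _ hcr
  · rcases hc with hc | ⟨a, d, ha, rfl⟩
    · exact (not_lt_le hcr hc).elim
    · obtain ⟨d0, d1, d2⟩ := FC r _ hcr
      rcases d1 with d1 | d1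
      · exact (LDMH.R a d r d0 ha d1.symm).elim
      · refine ⟨o k d0, Or.inr ⟨d0, rfl⟩, ?_, ?_⟩
        · rw [LDM.op]
          exact le_trans' (o_lt_p _ d1).le h1
        · refine lt_le h2 ?_
          rw [← o_p_o r k d0]
          exact o_mono_le _ d2

theorem desc {E r q : P} (h : Chn E r q) {v z : P} (hv : v = o E z) :
    ∀ c, (le c r ∨ ∃ a d, le a r ∧ c = o a d) → le (p q c) v → lt v (o q c) → False := by
  induction h with
  | one k =>
    intro c hc h1 h2
    obtain ⟨c', _, e1, e2⟩ := desc_step hc h1 h2
    subst hv
    exact no_between e1 e2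
  | @step r v' b h hb ih =>
    intro c hc h1 h2
    obtain ⟨c', e0, e1, e2⟩ := desc_step hc h1 h2
    refine ih c' ?_ e1 e2
    rcases e0 with rfl | ⟨d, rfl⟩
    · exact Or.inl hb
    · exact Or.inr ⟨b, d, hb, rfl⟩

/-- Claim P. -/
theorem claimP {E r q : P} (h : Chn E r q) {z y : P} (hv : o E z = o q y) :
    y = r ∨ ∃ g, y = o r g := by
  by_contra hcon
  push Not at hcon
  obtain ⟨hy1, hy2⟩ := hcon
  have key : ∀ k, q = p r k → ∃ c', (c' = k ∨ ∃ d, c' = o k d) ∧
      le (p r c') (o q y) ∧ lt (o q y) (o r c') := by
    rintro k rfl
    rcases tri y r with hy | hy | hy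
    · refine ⟨k, Or.inl rfl, (lt.o1 _ _).le, ?_⟩
      rw [oo r k]
      exact o_mono _ hy
    · exact (hy1 hy).elim
    · obtain ⟨d, d1, d2⟩ := FC r y hy
      rcases d2 with d2 | d2
      · exact (hy2 d d2).elim
      · refine ⟨o k d, Or.inr ⟨d, rfl⟩, ?_, ?_⟩
        · rw [LDM.op]; exact o_mono_le _ d1
        · rw [← o_p_o]; exact o_mono _ d2
  cases h with
  | one k =>
    obtain ⟨c', _, e1, e2⟩ := key k rfl
    rw [← hv] at e1 e2
    exact no_between e1 e2
  | @step r' _ b h hb =>
    obtain ⟨c', e0, e1, e2⟩ := key b rfl
    refine desc h hv.symm c' ?_ e1 e2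
    rcases e0 with rfl | ⟨d, rfl⟩
    · exact Or.inl hb
    · exact Or.inr ⟨b, d, hb, rfl⟩

theorem claimP_deg {E r q : P} (h : Chn E r q) {z y : P} (hv : o E z = o q y)
    (hy : deg y = 1) : y = r := by
  rcases claimP h hv with h | ⟨g, rfl⟩
  · exact h
  · rw [deg_o] at hy
    have h1 := deg_pos r
    have h2 := deg_pos g
    omega

/-! ### Chains for elements of degree one -/

omit [LDMH P] in
theorem chn_of_Fm {C : P → Prop} {B : Option P} {w v : P} (h : Fm C B w v) :
    ∀ {E : P} r, B = some r → Chn E r w → deg v = 1 → ∃ r', Chn E r' v := by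
  induction h with
  | dot h1 h2 =>
    rintro E r rfl hc _
    exact ⟨_, hc.step h2⟩
  | @circ B w k h1 h2 =>
    rintro E r rfl hc hd
    rw [deg_o] at hd
    have h1 := deg_pos w
    have h2 := deg_pos k
    omega
  | more h1 h2 h3 ih =>
    rintro E r rfl hc hd
    exact ih _ rfl (hc.step h2) hd

theorem chn_of_lt {s v : P} (hs : deg s = 1) (hv : deg v = 1) (h : lt s v) :
    ∃ r, Chn s r v := by
  have hF := form_of_lt hs h
  cases hF with
  | dot h1 h2 => exact ⟨_, .one _⟩
  | @circ _ _ k h1 h2 =>
    rw [deg_o] at hv
    have h1 := deg_pos k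
    omega
  | more h1 h2 h3 => exact chn_of_Fm h3 _ rfl (.one _) hv

/-! ### Factorisations in degree two -/

/-- The orbit of the pair `(a, b)` under `(a, b) ↦ (a · b, a)`. -/
inductive Orb (a b : P) : P → P → Prop
  | refl : Orb a b a b
  | step {c d : P} : Orb a b c d → Orb a b (p c d) c

omit [LDMH P] in
theorem Orb.cases' {a b c d : P} (h : Orb a b c d) :
    (c = a ∧ d = b) ∨ (le (p a b) c ∧ le a d) := by
  induction h with
  | refl => exact Or.inl ⟨rfl, rfl⟩
  | step _ ih =>
    rcases ih with ⟨rfl, rfl⟩ | ⟨h1, h2⟩
    · exact Or.inr ⟨le_rfl' _, le_rfl' _⟩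
    · exact Or.inr ⟨le_trans' h1 (lt.p1 _ _).le, le_trans' (lt.p1 _ _).le h1⟩

omit [LDMH P] in
theorem Orb.last {a b c d : P} (h : Orb a b c d) :
    (c = a ∧ d = b) ∨ ∃ e, Orb a b d e ∧ c = p d e := by
  cases h with
  | refl => exact Or.inl ⟨rfl, rfl⟩
  | step h => exact Or.inr ⟨_, h, rfl⟩

theorem orb_of_chn {s r s' : P} (h : Chn s r s') :
    ∀ {t t' : P}, o s t = o s' t' → deg s' = 1 → deg t' = 1 → Orb s t s' t' := by
  induction h with
  | one k =>
    intro t t' he _ ht
    obtain rfl := claimP_deg (.one k) he ht
    rw [← oo] at he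
    obtain rfl := o_cancel he
    exact .step .refl
  | @step r v b h hb ih =>
    intro t t' he hs ht
    obtain rfl := claimP_deg (h.step hb) he ht
    rw [← oo] at he
    rw [deg_p] at hs
    exact .step (ih he ht hs)

theorem orb {s t s' t' : P} (h : le s s') (hs : deg s = 1) (hs' : deg s' = 1)
    (ht' : deg t' = 1) (he : o s t = o s' t') : Orb s t s' t' := by
  rcases h with rfl | h
  · obtain rfl := o_cancel he
    exact .refl
  · obtain ⟨r, hr⟩ := chn_of_lt hs hs' h
    exact orb_of_chn hr he hs' ht'

/-- `a ∘ g = g ∘ y` with `a ≤ g` forces `a = g = y` in degree one. -/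
theorem eq_of_comm {a g y : P} (h : le a g) (ha : deg a = 1) (hg : deg g = 1) (hy : deg y = 1)
    (he : o a g = o g y) : g = a ∧ y = g := by
  rcases (orb h ha hg hy he).cases' with h1 | ⟨h1, _⟩
  · exact h1
  · exact (not_lt_le (sub_p a g) h1).elim

theorem orb_xx_last {c : P} (h : Orb (x : P) x c x) : c = x ∨ c = p x x := by
  rcases h.last with ⟨h, _⟩ | ⟨e, h1, h2⟩
  · exact Or.inl h
  · rcases h1.cases' with ⟨_, rfl⟩ | ⟨h3, _⟩
    · exact Or.inr h2
    · exact (not_lt_le (lt.p1 x x) h3).elim

theorem S2 {a : P} (ha : deg a = 1) (he : o a x = o (x : P) x) : a = x ∨ a = p x x :=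
  orb_xx_last (orb (x_le a) deg_x ha deg_x he.symm)

omit [LDMH P] in
theorem chn_ne {E v : P} (h : Chn E E v) : ∃ k, v = p E k := h.pred

theorem S3 {a : P} (ha : deg a = 1) (he : o a (o x x) = o (x : P) (o x x)) :
    a = x ∨ a = p x x ∨ a = p x (p x x) ∨ a = p (p x x) x := by
  rcases x_le a with h | h
  · exact Or.inl h.symm
  obtain ⟨r, hr⟩ := chn_of_lt deg_x ha h
  rcases claimP hr he.symm with h1 | ⟨g, h1⟩
  · exfalso
    cases hr with
    | one k =>
      have := congrArg deg h1
      rw [deg_o, deg_x] at this
      omega
    | step h2 _ =>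
      obtain ⟨k, rfl⟩ := h2.pred
      exact LDMH.R _ _ _ k (x_le _) h1
  · have hd := congrArg deg h1
    rw [deg_o, deg_o, deg_x] at hd
    have hd1 := deg_pos r
    have hd2 := deg_pos g
    have hr1 : deg r = 1 := by omega
    have hg1 : deg g = 1 := by omega
    have hO : Orb x x r g := orb (x_le r) deg_x hr1 hg1 h1
    cases hr with
    | one k =>
      obtain rfl := o_cancel h1
      rw [o_p_o] at he
      have he2 := o_cancel he
      rw [deg_p] at ha
      rcases S2 ha he2 with rfl | rfl
      · exact Or.inr (Or.inl rfl)
      · exact Or.inr (Or.inr (Or.inl rfl))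
    | @step ρ _ b h2 hb =>
      obtain rfl := claimP_deg h2 h1 hg1
      rw [deg_p] at ha
      have he2 : o b g = o g x := by
        have e1 : o (p r b) (o x x) = o r (o b g) := by rw [h1, o_p_o]
        have e2 : o x (o x x) = o r (o g x) := by rw [← oassoc, h1, oassoc]
        rw [e1, e2] at he
        exact o_cancel he
      obtain ⟨rfl, rfl⟩ := eq_of_comm hb ha hg1 deg_x he2
      rcases orb_xx_last hO with rfl | rfl
      · exact (irr _ h2.gt).elim
      · exact Or.inr (Or.inr (Or.inr rfl))

omit [LDMH P] in
theorem top_bound {ρ r v : P} (h : Chn ρ r v) : ∃ k, le (p ρ k) v ∧ le (o v r) (o ρ k) := by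
  induction h with
  | one k => exact ⟨k, le_rfl' _, by rw [← oo]; exact le_rfl' _⟩
  | @step r v b _ hb ih =>
    obtain ⟨k, h1, h2⟩ := ih
    refine ⟨k, le_trans' h1 (lt.p1 _ _).le, ?_⟩
    rw [← oo]
    exact le_trans' (o_mono_le v hb) h2

theorem chn_of_orb {t c d : P} (ht : deg t = 1) (h : Orb t x c d) :
    (c = t ∧ d = x) ∨ Chn (x : P) d c := by
  have h0 : Chn (x : P) t (p t x) := by
    rcases x_le t with h | h
    · rw [← h]; exact .one _
    · obtain ⟨r, hr⟩ := chn_of_lt deg_x ht h
      exact hr.step (x_le r)
  induction h with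
  | refl => exact Or.inl ⟨rfl, rfl⟩
  | step _ ih =>
    right
    rcases ih with ⟨h1, h2⟩ | ih
    · rw [h1, h2]; exact h0
    · exact ih.step (le_rfl' _)

omit [LDMH P] in
theorem orb_xx_le {c d : P} (h : Orb (x : P) x c d) : le d c := by
  cases h with
  | refl => exact le_rfl' _
  | step _ => exact (lt.p1 _ _).le

omit [LDMH P] in
theorem orb_x_pos {t c d : P} (h : Orb t (x : P) c d) (hc : c ≠ t) : le t d := by
  rcases h.cases' with ⟨h, _⟩ | ⟨_, h⟩
  · exact (hc h).elim
  · exact h

/-- The classification. -/
theorem main' {s t : P} (hs : deg s = 1) (ht : deg t = 1)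
    (h : o s (o t x) = o (x : P) (o x x)) :
    p s (p t x) = p x (p x x) ∨ p s (p t x) = p x (p (p x x) x) ∨
    p s (p t x) = p (p x x) (p (p x x) x) ∨ p s (p t x) = p (p (p x x) x) (p x x) := by
  set w := o s t with hw
  set c := p s (p t x) with hc
  have hcw : c = p w x := by rw [hc, hw, po]
  have hwx : o w x = o x (o x x) := by rw [hw, oassoc, h]
  have hcw2 : o c w = o x (o x x) := by rw [hcw, ← oo, hwx]
  have hdc : deg c = 1 := by rw [hcw, deg_p, deg_x]
  have hdw : deg w = 2 := by rw [hw, deg_o, hs, ht]
  have hxw : lt x w := le_lt (x_le s) (lt.o1 s t)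
  have hxc : lt x c := by rw [hcw]; exact hxw.trans (lt.p1 _ _)
  have hc4 : o x (o x (o x x)) = o c (o x (o x x)) := by
    have e1 : o c (o x (o x x)) = o (o c w) x := by rw [oassoc, hwx]
    rw [e1, hcw2, oassoc, oassoc]
  obtain ⟨q, hq⟩ := chn_of_lt deg_x hdc hxc
  generalize hcc : c = c' at hq
  cases hq with
  | one a =>
    have ha3 : o a (o x x) = o x (o x x) := by
      rw [hcc, o_p_o] at hc4
      exact (o_cancel hc4).symm
    have hda : deg a = 1 := by rw [hcc, deg_p] at hdc; exact hdc
    rcases S3 hda ha3 with rfl | rfl | rfl | rfl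
    · exfalso
      have h1 := px_le_of_lt hxw
      rw [← hcc, hcw] at h1
      exact not_lt_le (lt.p1 w x) h1
    · exact Or.inl rfl
    · exfalso
      have h1 : c = p (o x (o x x)) x := by rw [hcc, po, po]
      have h2 : lt (o x (o x x)) c := by rw [h1]; exact lt.p1 _ _
      have h3 : lt c (o x (o x x)) := by rw [← hcw2]; exact lt.o1 _ _
      exact asymm h2 h3
    · exact Or.inr (Or.inl rfl)
  | @step r _ a hr har =>
    have hda : deg a = 1 := by rw [hcc, deg_p] at hdc; exact hdc
    have hcq : Chn x q c := by rw [hcc]; exact hr.step har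
    rcases claimP hcq hc4 with h1 | ⟨g, h1⟩
    · exfalso
      obtain ⟨k, rfl⟩ := hr.pred
      exact LDMH.R _ _ _ k (x_le _) h1
    · have hag : o a g = o g x := by
        have e1 : o c (o x (o x x)) = o q (o a g) := by rw [hcc, h1, o_p_o]
        have e2 : o x (o x (o x x)) = o q (o g x) := by
          have : o (x : P) (o x (o x x)) = o (o x (o x x)) x := by
            rw [oassoc, oassoc]
          rw [this, h1, oassoc]
        rw [e1, e2] at hc4
        exact (o_cancel hc4).symm
      have hd := congrArg deg h1
      rw [deg_o, deg_o, deg_o, deg_x] at hd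
      have hdq := deg_pos q
      have hdg := deg_pos g
      by_cases hdg1 : deg g = 1
      · -- degree of `q` is two
        obtain rfl := claimP_deg hr h1 hdg1
        obtain ⟨rfl, hx⟩ := eq_of_comm har hda hdg1 deg_x hag
        subst hx
        obtain ⟨k, rfl⟩ := hr.pred
        rw [← oo] at h1
        obtain rfl := o_cancel h1
        right; right; left
        show p (p x (o x x)) x = p (p x x) (p (p x x) x)
        rw [LDM.op, po]
      · have hdg2 : deg g = 2 := by omega
        have hdq1 : deg q = 1 := by omega
        -- `w = q ∘ t'`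
        obtain ⟨t', ht'⟩ : ∃ t', w = o q t' := by
          rcases claimP hcq hcw2.symm with h2 | h2
          · rw [h2] at hdw; omega
          · exact h2
        have hdt' : deg t' = 1 := by
          rw [ht', deg_o] at hdw; omega
        have hg : g = o t' x := by
          rw [ht', oassoc, h1] at hwx
          exact (o_cancel hwx).symm
        have ha : a = p t' x := by
          have e1 : c = p q (p t' x) := by rw [hcw, ht', po]
          rw [hcc] at e1
          exact p_cancel e1
        have hdr := deg_pos r
        rcases claimP hr h1 with h2 | ⟨g', h2⟩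
        · -- impossible
          exfalso
          subst h2
          generalize hgg : g = g1 at hr
          cases hr with
          | one k =>
            rw [hgg, deg_x] at hdg2
            omega
          | @step ρ _ b h3 hb =>
            subst hgg
            rw [deg_p] at hdq1
            rw [← oo] at h1
            obtain rfl := claimP_deg h3 h1 hdq1
            obtain ⟨k, hk⟩ := h3.pred
            rw [hg] at hk
            rcases le_or_lt t' b with h4 | h4
            · exact LDMH.R _ _ _ k h4 hk
            · obtain ⟨r', hr'⟩ := chn_of_lt hdq1 hdt' h4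
              obtain ⟨k', k1, k2⟩ := top_bound hr'
              have e1 : le (o t' x) (o b k') := le_trans' (o_mono_le _ (x_le r')) k2
              have e2 : lt (p b k') (p b k) := by rw [← hk]; exact le_lt k1 (lt.o1 _ _)
              have e3 : lt (o b k') (p b k) := o_lt_p b (p_cancel_lt e2)
              rw [hk] at e1
              exact not_lt_le e3 e1
        · have hdd := congrArg deg h2
          rw [deg_o, hdg2] at hdd
          have hdg' := deg_pos g'
          have hdr1 : deg r = 1 := by omega
          have hdg'1 : deg g' = 1 := by omega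
          have htr : lt t' r := by
            have : lt t' a := by rw [ha]; exact lt.p1 _ _
            exact lt_le this har
          have hO : Orb t' x r g' := orb htr.le hdt' hdr1 hdg'1 (by rw [← hg, h2])
          have hrne : r ≠ t' := by
            rintro rfl
            exact irr _ htr
          have hCr : Chn x g' r := by
            rcases chn_of_orb hdt' hO with ⟨h3, _⟩ | h3
            · exact (hrne h3).elim
            · exact h3
          have htg' : le t' g' := orb_x_pos hO hrne
          generalize hrr : r = r1 at hr
          cases hr with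
          | one k =>
            exfalso
            rw [hrr] at hCr
            exact irr _ hCr.gt
          | @step ρ _ b h3 hb =>
            subst hrr
            obtain rfl := h3.unique hCr
            rw [deg_p] at hdq1
            have e1 : o x (o x x) = o r (o b ρ) := by rw [h1, h2, o_p_o]
            have hbρ : b = ρ := by
              rcases claimP h3 e1 with h4 | ⟨g2, h4⟩
              · have := congrArg deg h4
                rw [deg_o] at this
                omega
              · have hdg2' : deg g2 = 1 := by
                  have := congrArg deg h4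
                  rw [deg_o, deg_o] at this
                  omega
                exact (eq_of_comm hb hdq1 hdg'1 hdg2' h4).1.symm
            subst hbρ
            have e2 : o x (o x x) = o t' (o x b) := by
              rw [e1, ← oassoc, ← h2, hg, oassoc]
            have ht'x : t' = x := by
              rcases x_le t' with h4 | h4
              · exact h4.symm
              · exfalso
                obtain ⟨τ, hτ⟩ := chn_of_lt deg_x hdt' h4
                obtain ⟨kt, hkt⟩ := hτ.pred
                have hτt : lt τ t' := by rw [hkt]; exact lt.p1 _ _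
                rcases claimP hτ e2 with h5 | ⟨g3, h5⟩
                · generalize hττ : τ = τ1 at hτ
                  cases hτ with
                  | one k =>
                    have := congrArg deg h5
                    rw [hττ, deg_o, deg_x] at this
                    omega
                  | step h6 _ =>
                    subst hττ
                    obtain ⟨k6, rfl⟩ := h6.pred
                    exact LDMH.R _ _ _ k6 (x_le _) h5
                · have hdd3 := congrArg deg h5
                  rw [deg_o, deg_o, deg_x] at hdd3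
                  have hdτ := deg_pos τ
                  have hdg3 := deg_pos g3
                  have hO2 : Orb x b τ g3 :=
                    orb (x_le τ) deg_x (by omega) (by omega) h5
                  rcases hO2.cases' with ⟨rfl, rfl⟩ | ⟨h6, _⟩
                  · rw [hkt, o_p_o] at e2
                    have e3 := o_cancel e2
                    have hdkt : deg kt = 1 := by rw [hkt, deg_p] at hdt'; exact hdt'
                    have hO3 : Orb x x kt g3 := orb (x_le kt) deg_x hdkt (by omega) e3
                    have h7 := orb_xx_le hO3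
                    have h8 : lt kt t' := by rw [hkt]; exact sub_p _ _
                    exact not_le_lt (le_trans' htg' h7) h8
                  · exact asymm (lt_le (le_lt htg' (sub_p x b)) h6) hτt
            subst ht'x
            have e3 : b = x := (o_cancel (o_cancel e2)).symm
            subst e3
            rcases orb_xx_last hO with h4 | h4
            · exact (hrne h4).elim
            · right; right; right
              rw [ha, h4]

/-- The classification, with the two hypotheses explicit. -/
theorem main {P : Type} [LDM P] (irr : ∀ s : P, deg s = 1 → ¬ lt s s)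
    (hR : ∀ a b q d : P, le a q → o a b ≠ p q d) {s t : P} (hs : deg s = 1) (ht : deg t = 1)
    (h : o s (o t x) = o (x : P) (o x x)) :
    p s (p t x) = p x (p x x) ∨ p s (p t x) = p x (p (p x x) x) ∨
    p s (p t x) = p (p x x) (p (p x x) x) ∨ p s (p t x) = p (p (p x x) x) (p x x) :=
  haveI : LDMH P := ⟨irr, hR⟩
  main' hs ht h

end LDMon
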