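import Pool.Agent.Helper754_LD.Forms

/-!
# The closure lemma
-/

namespace LDMon

open LDM

variable {P : Type} [LDM P]

/-- First closure statement. -/
def L1 (u : P) (n : ℕ) : Prop :=
  ∀ (E : P) (B : Option P) (c : P) (B' : Option P), Good u E B → CC u c → leB c B →
    G (CC u) n c B' → (∀ c', B' = some c' → CC u c') → (B' = none → B = none) →
    (∀ z, CC u z → leB z B' → leB (o c z) B) → (∀ z, CC u z → leB z B' → ltB z B) →
    G (CC u) n (p E c) (B'.map (o E))

/-- Second closure statement. -/
def TT (u : P) (n : ℕ) : Prop :=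
  ∀ (Z : P) (B : Option P) (g : P) (B' : Option P), Good u Z B → G (CC u) n g B' →
    ltB g B → (∀ b, CC u b → leB b B' → leB (o g b) B) → G (CC u) n (o Z g) B'

variable [LDMH P]

omit [LDMH P] in
theorem TT_zero (u : P) : TT u 0 := by
  intro Z B g B' hZ hg hB _
  exact hZ.h1 _ (.circ hg.cc hB)

omit [LDMH P] in
theorem TT_succ {u : P} {n : ℕ} (hL : L1 u n) : TT u (n + 1) := by
  intro Z B g B' hZ hg hB hc
  refine ⟨hZ.h1 _ (.circ hg.cc hB), ?_, ?_⟩
  · intro b hb hb'
    rw [po]
    have hgb := hg.2.1 b hb hb'
    have hle : leB (o g b) B := hc b hb hb'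
    have := hL Z B (p g b) (some g) hZ hgb.cc (lt_leB (p_lt_o g b) hle).leB hgb
      (by rintro c' h; cases h; exact hg.cc) (by intro h; cases h)
      (by
        intro z _ hz
        refine le_leB ?_ hle
        rw [oo g b]
        exact o_mono_le _ hz)
      (by
        intro z _ hz
        exact le_ltB hz hB)
    exact this
  · intro f hf hf'
    rw [oassoc]
    exact hZ.h1' _ (hg.2.2 f hf hf') (hc f hf hf')

/-- The lifting lemma. -/
theorem lift_form {u : P} {n : ℕ} (hT : TT u n) {v : P} (hv : CC u v) {C' : P → Prop}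
    {B0 : Option P}
    (ih : ∀ e, C' e → leB e B0 → G (CC u) n (p v e) (some v) ∧ CC u (o v e))
    {B : Option P} {w e : P} (h : Fm C' B w e) :
    ∀ r, B = some r → ∀ ζ, Good u (p v w) (some ζ) → le (p v r) ζ → lt r w → le v (p v w) →
      leB e B0 → G (CC u) n (p v e) (some v) ∧ CC u (o v e) := by
  induction h with
  | @dot B w b hb1 hb2 =>
    rintro r rfl ζ hG hr hrw hvw heB
    have hbB : leB b B0 := le_leB (le_trans' hb2 (hrw.trans (lt.p1 w b)).le) heB
    obtain ⟨i1, i2⟩ := ih b hb1 hbB
    have hG' := hG.step i1.cc (le_trans' (p_mono_le v hb2) hr)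
    rw [ld]
    refine ⟨(hG'.G n).anti_some hvw, ?_⟩
    rw [oo, ld]
    exact hG'.h1' v hv hvw
  | @circ B w b hb1 hb2 =>
    rintro r rfl ζ hG hr hrw hvw heB
    have hbB : leB b B0 := le_leB ((hb2.trans hrw).trans (lt.o1 w b)).le heB
    obtain ⟨i1, i2⟩ := ih b hb1 hbB
    have hlt : le (o v b) ζ := (lt_le (o_lt_p v hb2) hr).le
    refine ⟨?_, ?_⟩
    · rw [LDM.op]
      refine hT _ _ _ _ hG i1 (lt_le (p_mono v hb2) hr) ?_
      intro z _ hz
      refine le_trans' ?_ hlt
      rw [oo v b]
      exact o_mono_le _ hz
    · have e1 : o v (o w b) = o (p v w) (o v b) := by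
        rw [← oassoc, ← oassoc, ← oo]
      rw [e1]
      exact hG.h1' _ i2 hlt
  | @more B w b e hb1 hb2 h3 ih3 =>
    rintro r rfl ζ hG hr hrw hvw heB
    have hbe : lt b e := (le_lt hb2 (hrw.trans (lt.p1 w b))).trans h3.gt
    obtain ⟨i1, i2⟩ := ih b hb1 (le_leB hbe.le heB)
    have hG' := hG.step i1.cc (le_trans' (p_mono_le v hb2) hr)
    rw [← ld] at hG'
    refine ih3 w rfl (p v w) hG' (le_rfl' _) (lt.p1 _ _) ?_ heB
    rw [ld]
    exact le_trans' hvw (lt.p1 _ _).le

omit [LDMH P] in
theorem L1_zero (u : P) : L1 u 0 := by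
  intro E B c B' hE hc hcB _ _ _ _ _
  exact hE.h1 _ (.dot hc hcB)

theorem L1_succ {u : P} {n : ℕ} (hL : L1 u n) (hT : TT u n) : L1 u (n + 1) := by
  intro E B c B' hE hc hcB hG hB' hnone hcompat hsub
  have hGv : Good u (p E c) (some E) := hE.step hc hcB
  have hCv : CC u (p E c) := hGv.cE
  have key : ∀ N e, K u N e → leB e (B'.map (o E)) →
      G (CC u) n (p (p E c) e) (some (p E c)) ∧ CC u (o (p E c) e) := by
    intro N
    induction N with
    | zero =>
      intro e he heB
      rcases (tri_CC u).le_or ⟨0, he⟩ hE.cE with h | h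
      · exact ⟨((hGv.step ⟨0, he⟩ h).G n), hGv.h1' e ⟨0, he⟩ h⟩
      · exfalso
        obtain ⟨N', h1, _⟩ := hE.h2 0 e he h (by
          rintro b rfl
          cases B' with
          | none => exact absurd (hnone rfl) (by simp)
          | some c' => exact le_lt heB (o_mono _ (hsub c' (hB' c' rfl) (le_rfl' _))))
        omega
    | succ N ihN =>
      intro e he heB
      rcases (tri_CC u).le_or ⟨N + 1, he⟩ hE.cE with h | h
      · exact ⟨((hGv.step ⟨N + 1, he⟩ h).G n), hGv.h1' e ⟨N + 1, he⟩ h⟩
      · obtain ⟨N', h1, hF⟩ := hE.h2 (N + 1) e he h (by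
          rintro b rfl
          cases B' with
          | none => exact absurd (hnone rfl) (by simp)
          | some c' => exact le_lt heB (o_mono _ (hsub c' (hB' c' rfl) (le_rfl' _))))
        obtain rfl : N = N' := by omega
        obtain ⟨k, k1, k2, k3, k4, k5⟩ := hF.first
        have hk : CC u k := ⟨N, k1⟩
        have hkB' : leB k B' := by
          cases B' with
          | none => trivial
          | some c' =>
            rcases (tri_CC u).le_or hk (hB' c' rfl) with h' | h'
            · exact h'
            · exact (irr e (lt_of_first (show le e (o E c') from heB) h' k3)).elim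
        have hck : leB (o c k) B := hcompat k hk hkB'
        have hGck : G (CC u) n (p c k) (some c) := hG.2.1 k hk hkB'
        have hCck : CC u (o c k) := hG.2.2 k hk hkB'
        have eQ : o (p E c) (p E k) = p E (o c k) := by rw [LDM.op]
        have eg : p (p E c) (p E k) = p E (p c k) := (ld _ _ _).symm
        -- Q
        have hQ : Good u (p E (o c k)) (some E) := hE.step hCck hck
        have hvE : le E (p E c) := (lt.p1 _ _).le
        -- g
        have hg : G (CC u) n (p E (p c k)) (some (p E c)) := by
          have := hL E B (p c k) (some c) hE hGck.cc (lt_leB (p_lt_o c k) hck).leB hGck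
            (by rintro c' h; cases h; exact hc) (by intro h; cases h)
            (by
              intro z _ hz
              refine le_leB ?_ hck
              rw [oo c k]
              exact o_mono_le _ hz)
            (by
              intro z _ hz
              exact le_ltB hz (lt_leB (lt.o1 c k) hck))
          exact this.anti_some (p_lt_o _ _).le
        have hgQ : o (p E (p c k)) (p E c) = p E (o c k) := by
          rw [← eg, ← oo, eQ]
        have hvQ : lt (p E c) (p E (o c k)) := by rw [← eQ]; exact lt.o1 _ _
        have hgltQ : lt (p E (p c k)) (p E (o c k)) := by rw [← hgQ]; exact lt.o1 _ _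
        -- the circle step over Q
        have hcirc : ∀ b, CC u b → le b E →
            G (CC u) n (o (p (p E (o c k)) b) (p E (p c k))) (some (p E c)) := by
          intro b hb hbE
          refine hT _ _ _ _ (hQ.step hb hbE) hg hgltQ ?_
          intro z _ hz
          show le _ _
          rw [← hgQ]
          exact o_mono_le _ hz
        rcases k5 with rfl | ⟨rfl, hkB⟩ | k5
        · refine ⟨?_, ?_⟩
          · rw [eg]; exact hg
          · rw [eQ]; exact hQ.cE
        · refine ⟨?_, ?_⟩
          · have e1 : p (p E c) (o E k) = o (p (p E (o c k)) E) (p E (p c k)) := by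
              rw [oo E k, LDM.op, ← eQ, po, eg, oo (p E (p c k)), ← eg, ← ld]
            rw [e1]
            exact hcirc E hE.cE (le_rfl' _)
          · have e1 : o (p E c) (o E k) = o E (o c k) := by
              rw [← oassoc, ← oo, oassoc]
            rw [e1]
            exact hE.h1' _ hCck hck
        · cases k5 with
          | @dot _ _ b hb1 hb2 =>
            have e1 : p (p E c) (p (p E k) b) = p (p E (o c k)) b := by
              rw [← po, eQ]
            have hGb := hQ.step ⟨N, hb1⟩ hb2
            refine ⟨?_, ?_⟩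
            · rw [e1]
              exact (hGb.G n).anti_some hvQ.le
            · rw [oo, e1]
              exact hGb.h1' _ hCv hvQ.le
          | @circ _ _ b hb1 hb2 =>
            refine ⟨?_, ?_⟩
            · have e1 : p (p E c) (o (p E k) b) = o (p (p E (o c k)) b) (p E (p c k)) := by
                rw [oo (p E k) b, LDM.op, eg, ← po, eQ]
              rw [e1]
              exact hcirc b ⟨N, hb1⟩ hb2.le
            · have e1 : o (p E c) (o (p E k) b) = o (p E (o c k)) b := by
                rw [← oassoc, eQ]
              rw [e1]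
              exact hQ.h1' _ ⟨N, hb1⟩ hb2.le
          | @more _ _ b _ hb1 hb2 h3 =>
            have e1 : p (p E c) (p (p E k) b) = p (p E (o c k)) b := by
              rw [← po, eQ]
            have hGb := hQ.step ⟨N, hb1⟩ hb2
            rw [← e1] at hGb
            refine lift_form hT hCv (C' := K u N) (B0 := B'.map (o E)) ihN h3 (p E k) rfl
              (p E (o c k)) hGb ?_ (lt.p1 _ _) ?_ heB
            · rw [eg]; exact hgltQ.le
            · rw [e1]; exact (hvQ.trans (lt.p1 _ _)).le
  refine ⟨hCv, ?_, ?_⟩
  · rintro b ⟨N, hN⟩ hb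
    exact (key N b hN hb).1
  · rintro b ⟨N, hN⟩ hb
    exact (key N b hN hb).2

theorem L1_TT (u : P) (n : ℕ) : L1 u n ∧ TT u n := by
  induction n with
  | zero => exact ⟨L1_zero u, TT_zero u⟩
  | succ n ih => exact ⟨L1_succ ih.1 ih.2, TT_succ ih.1⟩

end LDMon
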