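import Pool.Agent.Helper754_LD.Order

/-!
# Division forms in one-generated LD-monoids
-/

namespace LDMon

open LDM

variable {P : Type} [LDM P]

theorem ltB.leB {h : P} {B : Option P} (hh : ltB h B) : leB h B := by
  cases B with
  | none => trivial
  | some b => exact Or.inr hh

theorem le_leB {h h' : P} {B : Option P} (h1 : le h h') (h2 : leB h' B) : leB h B := by
  cases B with
  | none => trivial
  | some b => exact le_trans' h1 h2

theorem le_ltB {h h' : P} {B : Option P} (h1 : le h h') (h2 : ltB h' B) : ltB h B := by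
  cases B with
  | none => trivial
  | some b => exact le_lt h1 h2

theorem lt_leB {h h' : P} {B : Option P} (h1 : lt h h') (h2 : leB h' B) : ltB h B := by
  cases B with
  | none => trivial
  | some b => exact lt_le h1 h2

/-- Division forms with base `E`, first component bounded by `B`, components in `C`. -/
inductive Fm (C : P → Prop) : Option P → P → P → Prop
  | dot {B : Option P} {E h : P} : C h → leB h B → Fm C B E (p E h)
  | circ {B : Option P} {E h : P} : C h → ltB h B → Fm C B E (o E h)
  | more {B : Option P} {E h v : P} : C h → leB h B → Fm C (some E) (p E h) v → Fm C B E v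

theorem Fm.mono {C C' : P → Prop} (hC : ∀ h, C h → C' h) {B : Option P} {E v : P}
    (h : Fm C B E v) : Fm C' B E v := by
  induction h with
  | dot h1 h2 => exact .dot (hC _ h1) h2
  | circ h1 h2 => exact .circ (hC _ h1) h2
  | more h1 h2 _ ih => exact .more (hC _ h1) h2 ih

theorem Fm.gt {C : P → Prop} {B : Option P} {E v : P} (h : Fm C B E v) : lt E v := by
  induction h with
  | dot h1 h2 => exact lt.p1 _ _
  | circ h1 h2 => exact lt.o1 _ _
  | more h1 h2 _ ih => exact (lt.p1 _ _).trans ih

theorem Fm.bound' {C : P → Prop} {B : Option P} {E v : P} (h : Fm C B E v) :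
    ∀ b, B = some b → lt v (o E b) := by
  induction h with
  | dot h1 h2 =>
    rintro b rfl
    exact le_lt (p_mono_le _ h2) (p_lt_o _ _)
  | circ h1 h2 =>
    rintro b rfl
    exact o_mono _ h2
  | more h1 h2 _ ih =>
    rintro b rfl
    have := ih _ rfl
    rw [← oo] at this
    exact lt_le this (o_mono_le _ h2)

theorem Fm.bound {C : P → Prop} {b : P} {E v : P} (h : Fm C (some b) E v) :
    lt v (o E b) := h.bound' b rfl

/-- The first component of a form. -/
theorem Fm.first {C : P → Prop} {B : Option P} {E v : P} (h : Fm C B E v) :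
    ∃ h, C h ∧ leB h B ∧ le (p E h) v ∧ le v (o E h) ∧
      (v = p E h ∨ (v = o E h ∧ ltB h B) ∨ Fm C (some E) (p E h) v) := by
  cases h with
  | dot h1 h2 => exact ⟨_, h1, h2, le_rfl' _, (p_lt_o _ _).le, Or.inl rfl⟩
  | circ h1 h2 => exact ⟨_, h1, h2.leB, (p_lt_o _ _).le, le_rfl' _, Or.inr (Or.inl ⟨rfl, h2⟩)⟩
  | @more _ _ k _ h1 h2 h3 =>
    refine ⟨k, h1, h2, h3.gt.le, ?_, Or.inr (Or.inr h3)⟩
    have := h3.bound
    rw [← oo] at this
    exact this.le

/-- Trichotomy on a class. -/
def Tri (C : P → Prop) : Prop := ∀ a b, C a → C b → lt a b ∨ a = b ∨ lt b a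

theorem Tri.le_or {C : P → Prop} (hC : Tri C) {a b : P} (ha : C a) (hb : C b) :
    le a b ∨ lt b a := by
  rcases hC a b ha hb with h | h | h
  · exact Or.inl h.le
  · exact Or.inl (Or.inl h)
  · exact Or.inr h

theorem lt_of_first {E a b v w : P} (h1 : le v (o E a)) (h2 : lt a b) (h3 : le (p E b) w) :
    lt v w := le_lt h1 (lt_le (o_lt_p E h2) h3)

theorem Fm.tri {C : P → Prop} (hC : Tri C) {B : Option P} {E v : P} (h : Fm C B E v) :
    ∀ {B' : Option P} {w : P}, Fm C B' E w → lt v w ∨ v = w ∨ lt w v := by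
  induction h with
  | @dot B E k h1 h2 =>
    intro B' w hw
    obtain ⟨k', c1, c2, c3, c4, c5⟩ := hw.first
    rcases hC k k' h1 c1 with hk | rfl | hk
    · exact Or.inl (lt_of_first (p_lt_o _ _).le hk c3)
    · rcases c3 with c3 | c3
      · exact Or.inr (Or.inl c3)
      · exact Or.inl c3
    · exact Or.inr (Or.inr (lt_of_first c4 hk (le_rfl' _)))
  | @circ B E k h1 h2 =>
    intro B' w hw
    obtain ⟨k', c1, c2, c3, c4, c5⟩ := hw.first
    rcases hC k k' h1 c1 with hk | rfl | hk
    · exact Or.inl (lt_of_first (le_rfl' _) hk c3)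
    · rcases c4 with c4 | c4
      · exact Or.inr (Or.inl c4.symm)
      · exact Or.inr (Or.inr c4)
    · exact Or.inr (Or.inr (lt_of_first c4 hk (p_lt_o _ _).le))
  | @more B E k v h1 h2 h3 ih =>
    intro B' w hw
    obtain ⟨k', c1, c2, c3, c4, c5⟩ := hw.first
    have e1 : lt v (o E k) := by
      have := h3.bound
      rwa [← oo] at this
    have e2 : lt (p E k) v := h3.gt
    rcases hC k k' h1 c1 with hk | rfl | hk
    · exact Or.inl (lt_of_first e1.le hk c3)
    · rcases c5 with rfl | ⟨rfl, _⟩ | c5
      · exact Or.inr (Or.inr e2)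
      · exact Or.inl e1
      · exact ih c5
    · exact Or.inr (Or.inr (lt_of_first c4 hk e2.le))

/-! ### Forms with base `x` -/

/-- Iterated division forms with base `x`, of height `n`. -/
def D : ℕ → P → Prop
  | 0, v => v = x
  | n + 1, v => v = x ∨ Fm (D n) none x v

/-- Elements with an iterated division form with base `x`. -/
def DD (v : P) : Prop := ∃ n, D n v

theorem D_succ (n : ℕ) : ∀ v : P, D n v → D (n + 1) v := by
  induction n with
  | zero => intro v hv; exact Or.inl hv
  | succ n ih =>
    intro v hv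
    rcases hv with hv | hv
    · exact Or.inl hv
    · exact Or.inr (hv.mono ih)

theorem D_mono {m n : ℕ} (h : m ≤ n) {v : P} (hv : D m v) : D n v := by
  induction h with
  | refl => exact hv
  | step _ ih => exact D_succ _ _ ih

theorem tri_D (n : ℕ) : Tri (D n : P → Prop) := by
  induction n with
  | zero => rintro a b rfl rfl; exact Or.inr (Or.inl rfl)
  | succ n ih =>
    intro a b ha hb
    rcases ha with rfl | ha
    · rcases hb with rfl | hb
      · exact Or.inr (Or.inl rfl)
      · exact Or.inl hb.gt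
    · rcases hb with rfl | hb
      · exact Or.inr (Or.inr ha.gt)
      · exact ha.tri ih hb

theorem tri_DD : Tri (DD : P → Prop) := by
  rintro a b ⟨m, hm⟩ ⟨n, hn⟩
  exact tri_D (max m n) a b (D_mono (le_max_left _ _) hm) (D_mono (le_max_right _ _) hn)

/-- Iterated division forms with base `u`. -/
def K (u : P) : ℕ → P → Prop
  | 0, v => DD v ∧ le v u
  | n + 1, v => (DD v ∧ le v u) ∨ Fm (K u n) none u v

/-- Elements with an iterated division form with base `u`. -/
def CC (u : P) (v : P) : Prop := ∃ n, K u n v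

theorem K_succ (u : P) (n : ℕ) : ∀ v : P, K u n v → K u (n + 1) v := by
  induction n with
  | zero => intro v hv; exact Or.inl hv
  | succ n ih =>
    intro v hv
    rcases hv with hv | hv
    · exact Or.inl hv
    · exact Or.inr (hv.mono ih)

theorem K_mono (u : P) {m n : ℕ} (h : m ≤ n) {v : P} (hv : K u m v) : K u n v := by
  induction h with
  | refl => exact hv
  | step _ ih => exact K_succ _ _ _ ih

theorem tri_K (u : P) (n : ℕ) : Tri (K u n) := by
  induction n with
  | zero => rintro a b ⟨ha, _⟩ ⟨hb, _⟩; exact tri_DD a b ha hb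
  | succ n ih =>
    intro a b ha hb
    rcases ha with ⟨ha, ha'⟩ | ha
    · rcases hb with ⟨hb, _⟩ | hb
      · exact tri_DD a b ha hb
      · exact Or.inl (le_lt ha' hb.gt)
    · rcases hb with ⟨hb, hb'⟩ | hb
      · exact Or.inr (Or.inr (le_lt hb' ha.gt))
      · exact ha.tri ih hb

theorem tri_CC (u : P) : Tri (CC u) := by
  rintro a b ⟨m, hm⟩ ⟨n, hn⟩
  exact tri_K u (max m n) a b (K_mono u (le_max_left _ _) hm) (K_mono u (le_max_right _ _) hn)

theorem Fm.exists_K {u : P} {B : Option P} {E v : P} (h : Fm (CC u) B E v) :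
    ∃ N, Fm (K u N) B E v := by
  induction h with
  | dot h1 h2 => obtain ⟨N, hN⟩ := h1; exact ⟨N, .dot hN h2⟩
  | circ h1 h2 => obtain ⟨N, hN⟩ := h1; exact ⟨N, .circ hN h2⟩
  | more h1 h2 _ ih =>
    obtain ⟨N, hN⟩ := h1
    obtain ⟨M, hM⟩ := ih
    exact ⟨max N M, .more (K_mono u (le_max_left _ _) hN) h2
      (hM.mono (fun _ h => K_mono u (le_max_right _ _) h))⟩

theorem CC_of_Fm {u v : P} (h : Fm (CC u) none u v) : CC u v := by
  obtain ⟨N, hN⟩ := h.exists_K
  exact ⟨N + 1, Or.inr hN⟩

/-! ### The closure property -/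

/-- The closure property up to depth `n`. -/
def G (C : P → Prop) : ℕ → P → Option P → Prop
  | 0, v, _ => C v
  | n + 1, v, B => C v ∧ (∀ b, C b → leB b B → G C n (p v b) (some v)) ∧
      (∀ f, C f → leB f B → C (o v f))

theorem G.cc {C : P → Prop} {n : ℕ} {v : P} {B : Option P} (h : G C n v B) : C v := by
  cases n with
  | zero => exact h
  | succ n => exact h.1

theorem G.anti {C : P → Prop} {n : ℕ} {v : P} {B B' : Option P} (h : G C n v B)
    (hB : ∀ z, leB z B' → leB z B) : G C n v B' := by
  cases n with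
  | zero => exact h
  | succ n =>
    exact ⟨h.1, fun b hb hb' => h.2.1 b hb (hB b hb'), fun f hf hf' => h.2.2 f hf (hB f hf')⟩

theorem G.anti_some {C : P → Prop} {n : ℕ} {v b b' : P} (h : G C n v (some b))
    (hB : le b' b) : G C n v (some b') :=
  h.anti (fun _ hz => le_trans' hz hB)

theorem Fm.of_G {C : P → Prop} {B : Option P} {E v : P} (h : Fm C B E v) :
    (∀ n, G C n E B) → C v := by
  induction h with
  | @dot B E k h1 h2 => intro hG; exact ((hG 1).2.1 k h1 h2).cc
  | @circ B E k h1 h2 => intro hG; exact (hG 1).2.2 k h1 h2.leB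
  | @more B E k v h1 h2 h3 ih => intro hG; exact ih (fun n => (hG (n + 1)).2.1 k h1 h2)

/-- Good pairs relative to the base `u`. -/
structure Good (u E : P) (B : Option P) : Prop where
  cE : CC u E
  h1 : ∀ v, Fm (CC u) B E v → CC u v
  h1' : ∀ f, CC u f → leB f B → CC u (o E f)
  h2 : ∀ N e, K u N e → lt E e → (∀ b, B = some b → lt e (o E b)) →
    ∃ N', N = N' + 1 ∧ Fm (K u N') B E e

variable [LDMH P]

theorem good_base {u : P} (hu : DD u) : Good u u none where
  cE := ⟨0, hu, le_rfl' _⟩
  h1 := fun v hv => CC_of_Fm hv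
  h1' := fun f hf _ => CC_of_Fm (.circ hf trivial)
  h2 := by
    intro N e he hlt _
    cases N with
    | zero => exact absurd he.2 (fun h => not_lt_le hlt h)
    | succ N =>
      rcases he with he | he
      · exact absurd he.2 (fun h => not_lt_le hlt h)
      · exact ⟨N, rfl, he⟩

theorem Good.step {u E : P} {B : Option P} (hG : Good u E B) {c : P} (hc : CC u c)
    (hcB : leB c B) : Good u (p E c) (some E) where
  cE := hG.h1 _ (.dot hc hcB)
  h1 := fun v hv => hG.h1 _ (.more hc hcB hv)
  h1' := by
    intro f hf hfE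
    rcases hfE with rfl | hfE
    · rw [← oo]; exact hG.h1' c hc hcB
    · exact hG.h1 _ (.more hc hcB (.circ hf hfE))
  h2 := by
    intro N e he hlt hb
    have hb' : lt e (o E c) := by
      have := hb E rfl
      rwa [← oo] at this
    obtain ⟨N', rfl, hF⟩ := hG.h2 N e he ((lt.p1 _ _).trans hlt) (by
      rintro b rfl
      exact lt_le hb' (o_mono_le _ hcB))
    refine ⟨N', rfl, ?_⟩
    obtain ⟨k, c1, c2, c3, c4, c5⟩ := hF.first
    rcases tri_CC u k c ⟨N', c1⟩ hc with hk | rfl | hk
    · exact (irr e ((lt_of_first c4 hk (le_rfl' _)).trans hlt)).elim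
    · rcases c5 with rfl | ⟨rfl, _⟩ | c5
      · exact (irr _ hlt).elim
      · exact (irr _ hb').elim
      · exact c5
    · exact (irr e (lt_of_first hb'.le hk c3)).elim

theorem Good.G {u E : P} {B : Option P} (hG : Good u E B) (n : ℕ) :
    LDMon.G (CC u) n E B := by
  induction n generalizing E B with
  | zero => exact hG.cE
  | succ n ih => exact ⟨hG.cE, fun b hb hb' => ih (hG.step hb hb'), hG.h1'⟩

end LDMon
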