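import Pool.Agent.Helper754_LD.Closure

/-!
# Every element divides: `DD` is everything
-/

namespace LDMon

open LDM

variable {P : Type} [LDM P]

/-- Iterated division forms with base `u` describe the same elements as those with base `x`. -/
def M (u : P) : Prop := DD u ∧ ∀ v, DD v ↔ CC u v

theorem M_x : M (x : P) := by
  refine ⟨⟨0, rfl⟩, ?_⟩
  have h1 : ∀ n (v : P), K x n v → DD v := by
    intro n
    induction n with
    | zero => intro v hv; exact hv.1
    | succ n ih =>
      intro v hv
      rcases hv with hv | hv
      · exact hv.1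
      · have : ∃ m, Fm (D m) none x v := by
          have key : ∀ {B : Option P} {E v : P}, Fm (K x n) B E v → ∃ m, Fm (D m) B E v := by
            intro B E v h
            induction h with
            | dot h1 h2 => obtain ⟨m, hm⟩ := ih _ h1; exact ⟨m, .dot hm h2⟩
            | circ h1 h2 => obtain ⟨m, hm⟩ := ih _ h1; exact ⟨m, .circ hm h2⟩
            | more h1 h2 _ ih2 =>
              obtain ⟨m, hm⟩ := ih _ h1
              obtain ⟨m', hm'⟩ := ih2
              exact ⟨max m m', .more (D_mono (le_max_left _ _) hm) h2
                (hm'.mono (fun _ h => D_mono (le_max_right _ _) h))⟩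
          exact key hv
        obtain ⟨m, hm⟩ := this
        exact ⟨m + 1, Or.inr hm⟩
  have h2 : ∀ n (v : P), D n v → K x n v := by
    intro n
    induction n with
    | zero => intro v hv; exact ⟨⟨0, hv⟩, Or.inl hv⟩
    | succ n ih =>
      intro v hv
      rcases hv with hv | hv
      · exact Or.inl ⟨⟨0, hv⟩, Or.inl hv⟩
      · exact Or.inr (hv.mono ih)
  intro v
  constructor
  · rintro ⟨n, hn⟩; exact ⟨n, h2 n v hn⟩
  · rintro ⟨n, hn⟩; exact h1 n v hn

theorem M.eq {u : P} (h : M u) : CC u = DD := by
  funext v
  exact propext (h.2 v).symm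

theorem ltB_map {a h : P} {B : Option P} (hh : ltB h B) : ltB (p a h) (B.map (p a)) := by
  cases B with
  | none => trivial
  | some b => exact p_mono a hh

theorem leB_map {a h : P} {B : Option P} (hh : leB h B) : leB (p a h) (B.map (p a)) := by
  cases B with
  | none => trivial
  | some b => exact p_mono_le a hh

theorem Fm.map {C C' : P → Prop} {a : P} (hC : ∀ b, C b → C' (p a b)) {B : Option P} {F b : P}
    (h : Fm C B F b) : Fm C' (B.map (p a)) (p a F) (p a b) := by
  induction h with
  | dot h1 h2 => rw [ld]; exact .dot (hC _ h1) (leB_map h2)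
  | circ h1 h2 => rw [LDM.op]; exact .circ (hC _ h1) (ltB_map h2)
  | more h1 h2 _ ih =>
    refine .more (hC _ h1) (leB_map h2) ?_
    rw [← ld]
    exact ih

variable [LDMH P]

theorem M_step {q a : P} (hq : M q) (ha : M a) : M (p q a) := by
  have hDa : DD a := ha.1
  have hu : DD (p q a) := (hq.2 _).2 (CC_of_Fm (.dot ((hq.2 _).1 hDa) trivial))
  -- the upper class
  have hG1 : ∀ n, G (CC q) n (p q a) none := by
    intro n
    have hga : G (CC q) n a none := by
      rw [hq.eq, ← ha.eq]
      exact (good_base ha.1).G n
    have := (L1_TT q n).1 q none a none (good_base hq.1) ((hq.2 _).1 hDa) trivial hga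
      (by intro c' h; cases h) (fun _ => rfl) (fun _ _ _ => trivial) (fun _ _ _ => trivial)
    exact this
  have hM2 : ∀ N v, K (p q a) N v → DD v := by
    intro N
    induction N with
    | zero => intro v hv; exact hv.1
    | succ N ih =>
      intro v hv
      rcases hv with hv | hv
      · exact hv.1
      · exact (hq.2 _).2 ((hv.mono (fun b hb => (hq.2 _).1 (ih b hb))).of_G hG1)
  have hsub : ∀ v, CC (p q a) v → DD v := fun v ⟨N, hN⟩ => hM2 N v hN
  have hlow : ∀ v, DD v → le v (p q a) → CC (p q a) v := fun v hv hv' => ⟨0, hv, hv'⟩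
  have hGu : Good (p q a) (p q a) none := good_base hu
  -- left multiplication by `q`
  have hpK : ∀ N b, K a N b → CC (p q a) (p q b) := by
    intro N
    induction N with
    | zero =>
      intro b hb
      exact hlow _ ((hq.2 _).2 (CC_of_Fm (.dot ((hq.2 _).1 hb.1) trivial))) (p_mono_le q hb.2)
    | succ N ih =>
      intro b hb
      rcases hb with hb | hb
      · exact hlow _ ((hq.2 _).2 (CC_of_Fm (.dot ((hq.2 _).1 hb.1) trivial))) (p_mono_le q hb.2)
      · exact CC_of_Fm (hb.map ih)
  -- low elements
  have hLow : ∀ n v b0, G DD n v (some b0) → le (o v b0) (p q a) →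
      G (CC (p q a)) n v (some b0) := by
    intro n
    induction n with
    | zero => intro v b0 hv hle; exact hlow v hv ((lt_le (lt.o1 v b0) hle).le)
    | succ n ih =>
      intro v b0 hv hle
      refine ⟨hlow v hv.1 (lt_le (lt.o1 v b0) hle).le, ?_, ?_⟩
      · intro b hb hb'
        refine ih (p v b) v (hv.2.1 b (hsub b hb) hb') ?_
        rw [← oo]
        exact le_trans' (o_mono_le v hb') hle
      · intro f hf hf'
        exact hlow _ (hv.2.2 f (hsub f hf) hf') (le_trans' (o_mono_le v hf') hle)
  have hqu : le q (p q a) := (lt.p1 _ _).le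
  -- L3
  have hL3base : ∀ b, DD b → le b a → ∀ n, G (CC (p q a)) n (p q b) (some q) := by
    intro b hb hba n
    rcases hba with rfl | hba
    · exact (hGu.G n).anti (fun _ _ => trivial)
    · refine hLow n _ _ ?_ ?_
      · have := ((good_base hq.1).step ((hq.2 _).1 hb) (c := b) trivial).G n
        rw [hq.eq] at this
        exact this
      · rw [← oo]; exact (o_lt_p q hba).le
  have hL3 : ∀ N b, K a N b → ∀ n, G (CC (p q a)) n (p q b) (some q) := by
    intro N
    induction N with
    | zero => intro b hb; exact hL3base b hb.1 hb.2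
    | succ N ih =>
      intro b hb
      rcases hb with hb | hb
      · exact hL3base b hb.1 hb.2
      · have key : ∀ {B : Option P} {F b : P}, Fm (K a N) B F b →
            Good (p q a) (p q F) (B.map (p q)) → ∀ n, G (CC (p q a)) n (p q b) (some q) := by
          intro B F b h
          induction h with
          | @dot B F k k1 k2 =>
            intro hG n
            rw [ld]
            exact ((hG.step (hpK N k k1) (leB_map k2)).G n).anti_some (lt.p1 _ _).le
          | @circ B F k k1 k2 =>
            intro hG n
            rw [LDM.op]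
            refine (L1_TT (p q a) n).2 _ _ _ _ hG (ih k k1 n) (ltB_map k2) ?_
            intro z _ hz
            have h1 : le (o (p q k) z) (o q k) := by
              rw [oo q k]; exact o_mono_le _ hz
            cases B with
            | none => trivial
            | some b0 => exact le_trans' h1 (o_lt_p q k2).le
          | @more B F k b k1 k2 k3 ih3 =>
            intro hG n
            refine ih3 ?_ n
            have := hG.step (hpK N k k1) (leB_map k2)
            rw [← ld] at this
            exact this
        exact key hb hGu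
  -- the lower class
  have hM1 : ∀ N e, K q N e → CC (p q a) e := by
    intro N
    induction N with
    | zero => intro e he; exact hlow e he.1 (le_trans' he.2 hqu)
    | succ N ih =>
      intro e he
      rcases he with he | he
      · exact hlow e he.1 (le_trans' he.2 hqu)
      · obtain ⟨k, k1, k2, k3, k4, k5⟩ := he.first
        have hDk : DD k := (hq.2 _).2 ⟨N, k1⟩
        obtain ⟨Mk, hMk⟩ := (ha.2 _).1 hDk
        rcases k5 with rfl | ⟨rfl, _⟩ | k5
        · exact hpK Mk k hMk
        · rw [oo]
          exact (hL3 Mk k hMk 1).2.2 q (hlow q hq.1 hqu) (le_rfl' _)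
        · exact (k5.mono ih).of_G (hL3 Mk k hMk)
  refine ⟨hu, fun v => ⟨?_, hsub v⟩⟩
  intro hv
  obtain ⟨N, hN⟩ := (hq.2 _).1 hv
  exact hM1 N v hN

/-- The elements of degree one. -/
inductive S1 : P → Prop
  | x : S1 x
  | p {a b : P} : S1 a → S1 b → S1 (p a b)

theorem S1.M {s : P} (hs : S1 s) : LDMon.M s := by
  induction hs with
  | x => exact M_x
  | p _ _ ih1 ih2 => exact M_step ih1 ih2

/-- Products of elements of degree one. -/
inductive Pr : P → Prop
  | one {s : P} : S1 s → Pr s
  | cons {s w : P} : S1 s → Pr w → Pr (o s w)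

omit [LDMH P] in
theorem Pr.s1p {s w : P} (hs : S1 s) (hw : Pr w) : Pr (p s w) := by
  induction hw with
  | one h => exact .one (.p hs h)
  | cons h _ ih => rw [LDM.op]; exact .cons (.p hs h) ih

omit [LDMH P] in
theorem Pr.p {v w : P} (hv : Pr v) (hw : Pr w) : Pr (p v w) := by
  induction hv generalizing w with
  | one h => exact Pr.s1p h hw
  | cons h _ ih => rw [po]; exact Pr.s1p h (ih hw)

omit [LDMH P] in
theorem Pr.o {v w : P} (hv : Pr v) (hw : Pr w) : Pr (o v w) := by
  induction hv with
  | one h => exact .cons h hw
  | cons h _ ih => rw [oassoc]; exact .cons h ih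

omit [LDMH P] in
theorem all_Pr (v : P) : Pr v :=
  ind Pr (.one .x) (fun _ _ h1 h2 => h1.p h2) (fun _ _ h1 h2 => h1.o h2) v

theorem all_DD (v : P) : DD v := by
  induction all_Pr v with
  | one h => exact h.M.1
  | cons h _ ih => exact (h.M.2 _).2 (CC_of_Fm (.circ ((h.M.2 _).1 ih) trivial))

theorem tri (a b : P) : lt a b ∨ a = b ∨ lt b a := tri_DD a b (all_DD a) (all_DD b)

omit [LDMH P] in
theorem S1_of_deg {v : P} (h : deg v = 1) : S1 v := by
  cases all_Pr v with
  | one h => exact h
  | cons h1 h2 =>
    rw [deg_o] at h
    have := deg_pos (P := P)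
    rename_i s w
    have h3 := this s
    have h4 := this w
    omega

theorem M_of_deg {v : P} (h : deg v = 1) : M v := (S1_of_deg h).M

/-- Forms with base of degree one. -/
theorem form_of_lt {s v : P} (hs : deg s = 1) (h : lt s v) :
    Fm (fun _ => True) none s v := by
  obtain ⟨N, hN⟩ := ((M_of_deg hs).2 v).1 (all_DD v)
  cases N with
  | zero => exact (not_lt_le h hN.2).elim
  | succ N =>
    rcases hN with hN | hN
    · exact (not_lt_le h hN.2).elim
    · exact hN.mono (fun _ _ => trivial)

/-! ### Consequences -/

theorem le_or_lt (a b : P) : le a b ∨ lt b a := by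
  rcases tri a b with h | h | h
  · exact Or.inl h.le
  · exact Or.inl (Or.inl h)
  · exact Or.inr h

theorem p_cancel_lt {v a b : P} (h : lt (p v a) (p v b)) : lt a b := by
  rcases tri a b with h1 | rfl | h1
  · exact h1
  · exact (irr _ h).elim
  · exact (asymm h (p_mono v h1)).elim

theorem o_cancel_lt {v a b : P} (h : lt (o v a) (o v b)) : lt a b := by
  rcases tri a b with h1 | rfl | h1
  · exact h1
  · exact (irr _ h).elim
  · exact (asymm h (o_mono v h1)).elim

theorem p_cancel {v a b : P} (h : p v a = p v b) : a = b := by
  rcases tri a b with h1 | rfl | h1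
  · exact (irr _ (h ▸ p_mono v h1)).elim
  · rfl
  · exact (irr _ (h ▸ p_mono v h1)).elim

theorem o_cancel {v a b : P} (h : o v a = o v b) : a = b := by
  rcases tri a b with h1 | rfl | h1
  · exact (irr _ (h ▸ o_mono v h1)).elim
  · rfl
  · exact (irr _ (h ▸ o_mono v h1)).elim

/-- First components exist over any base. -/
theorem FC (q : P) : ∀ y, lt q y → ∃ b, le (p q b) y ∧ le y (o q b) := by
  have := all_Pr q
  induction this with
  | @one s h =>
    intro y hy
    have hM := h.M
    obtain ⟨N, hN⟩ := (hM.2 y).1 (all_DD y)
    cases N with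
    | zero => exact (not_lt_le hy hN.2).elim
    | succ N =>
      rcases hN with hN | hN
      · exact (not_lt_le hy hN.2).elim
      · obtain ⟨b, _, _, h3, h4, _⟩ := hN.first
        exact ⟨b, h3, h4⟩
  | @cons s w h hw ih =>
    intro y hy
    have hM := h.M
    obtain ⟨N, hN⟩ := (hM.2 y).1 (all_DD y)
    have hsy : lt s y := (lt.o1 s w).trans hy
    cases N with
    | zero => exact (not_lt_le hsy hN.2).elim
    | succ N =>
      rcases hN with hN | hN
      · exact (not_lt_le hsy hN.2).elim
      · obtain ⟨b, _, _, h3, h4, _⟩ := hN.first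
        have hwb : lt w b := o_cancel_lt (lt_le hy h4)
        obtain ⟨d, d1, d2⟩ := ih b hwb
        refine ⟨d, ?_, ?_⟩
        · rw [po]; exact le_trans' (p_mono_le s d1) h3
        · rw [oassoc]; exact le_trans' h4 (o_mono_le s d2)

/-- `b < a · b`. -/
theorem sub_p (a : P) : ∀ b, lt b (p a b) := by
  have := all_Pr a
  induction this with
  | @one s h =>
    have hM := h.M
    have key : ∀ N b, K s N b → lt b (p s b) := by
      intro N
      induction N with
      | zero => intro b hb; exact le_lt hb.2 (lt.p1 _ _)
      | succ N ih =>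
        intro b hb
        rcases hb with hb | hb
        · exact le_lt hb.2 (lt.p1 _ _)
        · obtain ⟨k, k1, _, k3, k4, _⟩ := hb.first
          have h1 : lt k (p s k) := ih k k1
          exact le_lt k4 (o_lt_p s (lt_le h1 k3))
    intro b
    obtain ⟨N, hN⟩ := (hM.2 b).1 (all_DD b)
    exact key N b hN
  | @cons s w h hw ih =>
    intro b
    rw [po]
    have hM := h.M
    have key : ∀ N b, K s N b → lt b (p s b) := by
      intro N
      induction N with
      | zero => intro b hb; exact le_lt hb.2 (lt.p1 _ _)
      | succ N ih =>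
        intro b hb
        rcases hb with hb | hb
        · exact le_lt hb.2 (lt.p1 _ _)
        · obtain ⟨k, k1, _, k3, k4, _⟩ := hb.first
          have h1 : lt k (p s k) := ih k k1
          exact le_lt k4 (o_lt_p s (lt_le h1 k3))
    obtain ⟨N, hN⟩ := (hM.2 (p w b)).1 (all_DD _)
    exact (ih b).trans (key N _ hN)

end LDMon
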